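import Pool.Agent.Y214.CY.Stm

set_option autoImplicit false
set_option linter.unusedSectionVars false

/-! Project CY: few variables, roots and norms. -/

namespace Pool.Agent.Y339.CY.Low1

open Pool.Agent.Y214.CY Polynomial

theorem t_NRM1 : S_NRM1 := by
  intro K _ a b c g0 g1 g2 z h1 h2
  have hg : g0 = -(g1 * z + g2 * z ^ 2) := by linear_combination h2
  have hc : c = -(z ^ 3 + a * z ^ 2 + b * z) := by linear_combination h1
  subst hg hc
  unfold nrm
  ring

theorem t_NRM2 : S_NRM2 := by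
  intro K _ a b c g0 g1 g2 hz hn
  classical
  -- the cubic
  set f : K[X] := X ^ 3 + C a * X ^ 2 + C b * X + C c with hf
  have hdeg : f.natDegree = 3 := by
    rw [hf]; compute_degree!
  have hmon : f.Monic := by
    rw [hf]; monicity!
  have hirr : Irreducible f := by
    rw [hmon.irreducible_iff_roots_eq_zero_of_degree_le_three (by omega) (by omega)]
    rw [Multiset.eq_zero_iff_forall_notMem]
    intro z hzr
    rw [mem_roots hmon.ne_zero, IsRoot.def, hf] at hzr
    simp only [eval_add, eval_mul, eval_pow, eval_X, eval_C] at hzr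
    exact hz z hzr
  -- the matrix
  let M : Matrix (Fin 3) (Fin 3) K :=
    !![g0, -(c * g2), -(c * g1) + a * c * g2; g1, g0 - b * g2, -(b * g1) + (a * b - c) * g2;
      g2, g1 - a * g2, g0 - a * g1 + (a ^ 2 - b) * g2]
  have hdet : M.det = 0 := by
    rw [← hn, Matrix.det_fin_three]
    simp only [M, nrm, Matrix.of_apply, Matrix.cons_val', Matrix.cons_val_zero,
      Matrix.cons_val_one, Matrix.cons_val]
    ring
  obtain ⟨v, hv0, hv⟩ := Matrix.exists_mulVec_eq_zero_iff.2 hdet
  have e0 := congrFun hv 0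
  have e1 := congrFun hv 1
  have e2 := congrFun hv 2
  simp only [M, Matrix.mulVec, dotProduct, Fin.sum_univ_three, Matrix.of_apply,
    Matrix.cons_val', Matrix.cons_val_zero, Matrix.cons_val_one, Matrix.cons_val,
    Pi.zero_apply] at e0 e1 e2
  set G : K[X] := C g0 + C g1 * X + C g2 * X ^ 2 with hG
  set W : K[X] := C (v 0) + C (v 1) * X + C (v 2) * X ^ 2 with hW
  have hprod : G * W = f * (C (g2 * v 2) * X + C (g1 * v 2 + g2 * v 1 - a * g2 * v 2)) := by
    have E0 := congrArg (C : K → K[X]) e0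
    have E1 := congrArg (C : K → K[X]) e1
    have E2 := congrArg (C : K → K[X]) e2
    simp only [map_add, map_mul, map_neg, map_sub, map_pow, map_zero] at E0 E1 E2
    rw [hG, hW, hf]
    simp only [map_add, map_mul, map_neg, map_sub, map_pow]
    linear_combination E0 + X * E1 + X ^ 2 * E2
  have hdvd : f ∣ G * W := ⟨_, hprod⟩
  have hdG : G.natDegree ≤ 2 := by
    rw [hG]; compute_degree
  have hdW : W.natDegree ≤ 2 := by
    rw [hW]; compute_degree
  rcases hirr.prime.dvd_or_dvd hdvd with h | h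
  · have hG0 : G = 0 := by
      by_contra hne
      have := natDegree_le_of_dvd h hne
      omega
    have c0 := congrArg (fun p => coeff p 0) hG0
    have c1 := congrArg (fun p => coeff p 1) hG0
    have c2 := congrArg (fun p => coeff p 2) hG0
    simp [hG, coeff_X, coeff_X_pow, coeff_C] at c0 c1 c2
    exact ⟨c0, c1, c2⟩
  · exfalso
    have hW0 : W = 0 := by
      by_contra hne
      have := natDegree_le_of_dvd h hne
      omega
    have c0 := congrArg (fun p => coeff p 0) hW0
    have c1 := congrArg (fun p => coeff p 1) hW0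
    have c2 := congrArg (fun p => coeff p 2) hW0
    simp [hW, coeff_X, coeff_X_pow, coeff_C] at c0 c1 c2
    apply hv0
    funext i
    fin_cases i
    · exact c0
    · exact c1
    · exact c2

section T

variable {k : Type} [Field k]

lemma T_zero (n : ℤ) : T n (0 : k[X]) 0 := by
  rcases lt_or_ge n 0 with h | h
  · exact Or.inr ⟨h, rfl, rfl⟩
  · obtain ⟨m, rfl⟩ := Int.eq_ofNat_of_zero_le h
    exact Or.inl ⟨m, rfl, by simp, by simp⟩

lemma T_idx {m n : ℤ} {p : k[X]} {c : k} (h : T m p c) (e : m = n) : T n p c := e ▸ h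

lemma T_mul {m n : ℤ} {p q : k[X]} {c d : k} (hp : T m p c) (hq : T n q d) :
    T (m + n) (p * q) (c * d) := by
  rcases hp with ⟨m', rfl, h1, h2⟩ | ⟨_, rfl, rfl⟩
  · rcases hq with ⟨n', rfl, h3, h4⟩ | ⟨_, rfl, rfl⟩
    · refine Or.inl ⟨m' + n', by push_cast; rfl, ?_, ?_⟩
      · exact natDegree_mul_le.trans (add_le_add h1 h3)
      · rw [coeff_mul_add_eq_of_natDegree_le h1 h3, h2, h4]
    · rw [mul_zero, mul_zero]
      exact T_zero _
  · rw [zero_mul, zero_mul]
    exact T_zero _

lemma T_add {n : ℤ} {p q : k[X]} {c d : k} (hp : T n p c) (hq : T n q d) :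
    T n (p + q) (c + d) := by
  rcases hp with ⟨m', rfl, h1, h2⟩ | ⟨h0, rfl, rfl⟩
  · rcases hq with ⟨n', e, h3, h4⟩ | ⟨h0, rfl, rfl⟩
    · have : m' = n' := by exact_mod_cast e
      subst this
      exact Or.inl ⟨m', rfl, natDegree_add_le_of_degree_le h1 h3, by rw [coeff_add, h2, h4]⟩
    · exfalso
      have : (0 : ℤ) ≤ (m' : ℤ) := Int.natCast_nonneg _
      omega
  · rw [zero_add, zero_add]
    exact hq

lemma T_C (x : k) : T 0 (C x) x := Or.inl ⟨0, rfl, by simp, by simp⟩

lemma T_neg {n : ℤ} {p : k[X]} {c : k} (hp : T n p c) : T n (-p) (-c) := by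
  rcases hp with ⟨m', rfl, h1, h2⟩ | ⟨h0, rfl, rfl⟩
  · exact Or.inl ⟨m', rfl, by rwa [natDegree_neg], by rw [coeff_neg, h2]⟩
  · rw [neg_zero, neg_zero]
    exact T_zero _

lemma T_sub {n : ℤ} {p q : k[X]} {c d : k} (hp : T n p c) (hq : T n q d) :
    T n (p - q) (c - d) := by
  rw [sub_eq_add_neg, sub_eq_add_neg]
  exact T_add hp (T_neg hq)

lemma T_one : T 0 (1 : k[X]) 1 := by
  have := T_C (1 : k)
  rwa [map_one] at this

lemma T_pow {n : ℤ} {p : k[X]} {c : k} (hp : T n p c) (j : ℕ) : T (j * n) (p ^ j) (c ^ j) := by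
  induction j with
  | zero => simpa using T_one
  | succ j ih =>
    rw [pow_succ, pow_succ]
    exact T_idx (T_mul ih hp) (by push_cast; ring)

lemma T_num (j : ℕ) [j.AtLeastTwo] : T 0 (OfNat.ofNat j : k[X]) (OfNat.ofNat j : k) := by
  have := T_C (OfNat.ofNat j : k)
  rwa [map_ofNat] at this

end T

theorem t_TOP : S_TOP := by
  intro k _ a b c g0 g1 g2 α β γ c0 c1 c2 r ha hb hc h0 h1 h2
  unfold nrm
  have n2 : T 0 (2 : k[X]) (2 : k) := T_num 2
  have n3 : T 0 (3 : k[X]) (3 : k) := T_num 3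
  refine T_add (T_sub (T_add (T_sub (T_add (T_add (T_add (T_add (T_sub ?_ ?_) ?_) ?_) ?_) ?_) ?_) ?_)
    ?_) ?_
  · exact T_idx (T_pow h0 3) (by push_cast; ring)
  · exact T_idx (T_mul (T_mul ha (T_pow h0 2)) h1) (by push_cast; ring)
  · exact T_idx (T_mul (T_mul (T_sub (T_idx (T_pow ha 2) (n := 2) (by norm_num))
      (T_idx (T_mul n2 hb) (by norm_num))) (T_pow h0 2)) h2) (by push_cast; ring)
  · exact T_idx (T_mul (T_mul hb h0) (T_pow h1 2)) (by push_cast; ring)
  · exact T_idx (T_mul (T_mul (T_mul (T_sub (T_idx (T_mul n3 hc) (n := 3) (by norm_num))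
      (T_idx (T_mul ha hb) (by norm_num))) h0) h1) h2) (by push_cast; ring)
  · exact T_idx (T_mul (T_mul (T_sub (T_idx (T_pow hb 2) (n := 4) (by norm_num))
      (T_idx (T_mul (T_mul n2 ha) hc) (by norm_num))) h0) (T_pow h2 2)) (by push_cast; ring)
  · exact T_idx (T_mul hc (T_pow h1 3)) (by push_cast; ring)
  · exact T_idx (T_mul (T_mul (T_mul ha hc) (T_pow h1 2)) h2) (by push_cast; ring)
  · exact T_idx (T_mul (T_mul (T_mul hb hc) h1) (T_pow h2 2)) (by push_cast; ring)
  · exact T_idx (T_mul (T_pow hc 2) (T_pow h2 3)) (by push_cast; ring)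

theorem t_CW : S_CW := by
  intro p hp ι _ t hA
  classical
  by_contra hcard
  rw [not_le] at hcard
  let F : MvPolynomial ι (ZMod p) :=
    ∑ i, ∑ j, ∑ l, MvPolynomial.C (t i j l) * MvPolynomial.X i * MvPolynomial.X j *
      MvPolynomial.X l
  have hF : ∀ x : ι → ZMod p, MvPolynomial.eval x F = cub t x := by
    intro x
    simp [F, cub, map_sum]
  have hdeg : F.totalDegree ≤ 3 := by
    refine (MvPolynomial.IsHomogeneous.totalDegree_le (n := 3) ?_)
    refine MvPolynomial.IsHomogeneous.sum _ _ _ fun i _ =>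
      MvPolynomial.IsHomogeneous.sum _ _ _ fun j _ =>
      MvPolynomial.IsHomogeneous.sum _ _ _ fun l _ => ?_
    have h1 := (((MvPolynomial.isHomogeneous_C ι (t i j l)).mul
      (MvPolynomial.isHomogeneous_X (ZMod p) i)).mul
      (MvPolynomial.isHomogeneous_X (ZMod p) j)).mul (MvPolynomial.isHomogeneous_X (ZMod p) l)
    simpa using h1
  have hdvd := char_dvd_card_solutions p (f := F) (lt_of_le_of_lt hdeg hcard)
  have hone : Fintype.card {x : ι → ZMod p // MvPolynomial.eval x F = 0} = 1 := by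
    rw [Fintype.card_eq_one_iff]
    refine ⟨⟨0, ?_⟩, ?_⟩
    · rw [hF]; simp [cub]
    · rintro ⟨y, hy⟩
      rw [hF] at hy
      by_contra hne
      exact hA y (fun h => hne (Subtype.ext h)) hy
  rw [hone] at hdvd
  exact hp.out.one_lt.ne' (Nat.dvd_one.1 hdvd)

theorem t_REAL : S_REAL := by
  intro ι _ hcard f hf
  classical
  obtain ⟨i0, i1, hne⟩ : ∃ i0 i1 : ι, i0 ≠ i1 := by
    rw [← Fintype.one_lt_card_iff]
    omega
  have hcont : Continuous fun y : ι → ℝ => MvPolynomial.aeval y f := by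
    have : (fun y : ι → ℝ => MvPolynomial.aeval y f) =
        fun y => MvPolynomial.eval y (MvPolynomial.map (algebraMap ℤ ℝ) f) := by
      funext y
      rw [MvPolynomial.eval_map, MvPolynomial.aeval_def]
    rw [this]
    exact MvPolynomial.continuous_eval _
  have hodd : ∀ y : ι → ℝ, MvPolynomial.aeval (-y) f = -MvPolynomial.aeval y f := by
    intro y
    rw [MvPolynomial.aeval_def, MvPolynomial.aeval_def, MvPolynomial.eval₂_eq',
      MvPolynomial.eval₂_eq', ← Finset.sum_neg_distrib]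
    refine Finset.sum_congr rfl fun m hm => ?_
    have hdeg : ∑ i, m i = 3 := by
      have := hf (MvPolynomial.mem_support_iff.1 hm)
      rw [Finsupp.weight_apply, Finsupp.sum_fintype] at this
      · simpa using this
      · intro i; simp
    have e : ∏ i, (-y) i ^ m i = -∏ i, y i ^ m i := by
      have : ∀ i, (-y) i ^ m i = (-1) ^ m i * y i ^ m i := by
        intro i
        rw [Pi.neg_apply, neg_eq_neg_one_mul, mul_pow]
      rw [Finset.prod_congr rfl fun i _ => this i, Finset.prod_mul_distrib,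
        Finset.prod_pow_eq_pow_sum, hdeg]
      norm_num
    rw [e]
    ring
  let γ : ℝ → ι → ℝ := fun θ => Real.cos θ • Pi.single i0 1 + Real.sin θ • Pi.single i1 1
  have hγ : Continuous γ := by
    unfold γ
    fun_prop
  have hφ : Continuous fun θ => MvPolynomial.aeval (γ θ) f := hcont.comp hγ
  have hpi : γ Real.pi = -γ 0 := by
    funext i
    simp [γ]
  have hne0 : ∀ θ, γ θ ≠ 0 := by
    intro θ h
    have h0 := congrFun h i0
    have h1 := congrFun h i1
    simp [γ, Pi.single_apply, hne, hne.symm] at h0 h1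
    have := Real.sin_sq_add_cos_sq θ
    rw [h0, h1] at this
    norm_num at this
  have hend : MvPolynomial.aeval (γ Real.pi) f = -MvPolynomial.aeval (γ 0) f := by
    rw [hpi, hodd]
  -- intermediate value theorem
  have hconn : IsPreconnected (Set.univ : Set ℝ) := isPreconnected_univ
  rcases le_total (MvPolynomial.aeval (γ 0) f) 0 with h | h
  · obtain ⟨θ, hθ⟩ := mem_range_of_exists_le_of_exists_ge hφ ⟨0, h⟩
      ⟨Real.pi, by show (0 : ℝ) ≤ _; rw [hend]; linarith⟩
    exact ⟨γ θ, hne0 θ, hθ⟩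
  · obtain ⟨θ, hθ⟩ := mem_range_of_exists_le_of_exists_ge hφ
      ⟨Real.pi, by show _ ≤ (0 : ℝ); rw [hend]; linarith⟩ ⟨0, h⟩
    exact ⟨γ θ, hne0 θ, hθ⟩

end Pool.Agent.Y339.CY.Low1
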